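import Mathlib
import Pool.Agent.Q98.SR.P

/-!
# Parry powers and Perron numbers of bounded degree over Galois fields of finite exponent modulo the
centre

Fix `d, D ≥ 1`.  Let `β` be a Perron number which has degree at most `D` over a finite Galois extension
of `ℚ` in whose group all `d`-th powers are central.  (This holds, with `D = 2`, if the trace field
`ℚ(β + 1/β)` is contained in such an extension; the trace field itself need not be Galois.)  If
infinitely many powers of `β` are Parry numbers, then `log β ≥ c n ^ (1 / (d + 1))`, where `n` is the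
degree of `β` and `c > 0` depends only on `d` and `D`.  Hence for every `B` only finitely many such
`β ≤ B` have infinitely many Parry powers; for `B` equal to Lehmer's number, the assertion of Q1 holds
for all Perron numbers of the class with finitely many exceptions.
-/

set_option autoImplicit false

open Polynomial

namespace Pool.Agent.Results.MP_1f45fc_nt.BoundedDegreeOverFiniteExponent

/-- `β` is a Perron number: an algebraic integer `β > 1` whose other conjugates have absolute value
smaller than `β` -/
def IsPerron (β : ℝ) : Prop :=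
  1 < β ∧ IsIntegral ℤ β ∧
    ∀ z : ℂ, aeval z (minpoly ℤ β) = 0 → z ≠ (β : ℂ) → ‖z‖ < β

/-- the set of the `m ≥ 1` such that `β ^ m` is a Parry number, that is, such that `1` has a finite
orbit under `x ↦ {β ^ m x}` -/
def ParryPowers (β : ℝ) : Set ℕ :=
  {m : ℕ | 1 ≤ m ∧ Set.Finite (Set.range (fun k : ℕ =>
    (fun x : ℝ => Int.fract (β ^ m * x))^[k] (1 : ℝ)))}

/-- `z` has degree at most `D` over a finite Galois extension of `ℚ` in whose Galois group all
`d`-th powers are central -/
def BoundedOver (d D : ℕ) (z : ℂ) : Prop :=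
  ∃ L : IntermediateField ℚ ℂ, FiniteDimensional ℚ L ∧ IsGalois ℚ L ∧
    (∀ σ τ : L ≃ₐ[ℚ] L, σ ^ d * τ = τ * σ ^ d) ∧ (minpoly L z).natDegree ≤ D

theorem result (d D : ℕ) (hd : 0 < d) (hD : 0 < D) :
    (∃ c : ℝ, 0 < c ∧ ∀ β : ℝ, IsPerron β → BoundedOver d D (β : ℂ) → (ParryPowers β).Infinite →
      c * ((minpoly ℤ (β : ℂ)).natDegree : ℝ) ^ ((1 : ℝ) / (d + 1)) ≤ Real.log β) ∧
    ∀ B : ℝ, {β : ℝ | IsPerron β ∧ β ≤ B ∧ BoundedOver d D (β : ℂ) ∧
      (ParryPowers β).Infinite}.Finite :=
  ⟨Pool.Agent.Q98.SR.perron_bound d D hd hD, Pool.Agent.Q98.SR.perron_finite d D hd hD⟩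

end Pool.Agent.Results.MP_1f45fc_nt.BoundedDegreeOverFiniteExponent
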