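import Mathlib
import Pool.Agent.Q188.RK.Fin
import Pool.Agent.H196R3.ParryB

/-!
# Parry powers of Perron numbers and integer matrices with bounded growth of volumes

Let `L`, `K`, `s` be given. There is `μ > 1` with the following property. Let `β < μ` be a Perron number
which is an eigenvalue of an integer matrix `A` of any size `n`, the characteristic polynomial of `A` being
the product of the minimal polynomial of `β` and of a polynomial of Mahler measure one. Suppose that
there are an inner product `G` on `ℂ ^ n` and an integer matrix `D` such that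

* in one step `A` increases the volumes of the parallelepipeds of all dimensions, measured with `G`, at
  most by the factor `K ^ (1/2)`,
* `D` has rank at most `s` and norm at most `L ^ (1/2)`, and `β` is not an eigenvalue of `A + D`.

Then `β ^ n` is a Parry number for only finitely many `n`. In particular there is no Salem number
smaller than `μ` among these numbers `β`.

For example, if `β` is a Salem number and `A` an isometry, with this eigenvalue, of a Lorentzian lattice
`Λ`, each point `x` of hyperbolic space defines an inner product `G`, for which `A` increases the volumes at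
most by the factor `exp (d (x, A x))`; the condition on `D` holds if `Λ` and its dual contain nonzero
vectors of bounded length for `G` (`D = w f`, `w` in `Λ`, `f` in the dual).

The proof combines the bound for the height of the pair of the characteristic polynomials of `A` and
`A + D` (`Q188.RK`) with the theorem that `β` is equal to its Mahler measure if it has infinitely many
Parry powers (starting library).
-/

set_option autoImplicit false

open Polynomial Matrix
open scoped ComplexOrder

namespace Pool.Agent.Results.MP_1f45fc_nt.BoundedVolumeGrowth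

/-- An integer matrix as a complex matrix. -/
noncomputable abbrev toComplex {n : ℕ} (A : Matrix (Fin n) (Fin n) ℤ) : Matrix (Fin n) (Fin n) ℂ :=
  A.map (Int.castRingHom ℂ)

/-- The square of the `k`-dimensional volume, with respect to the inner product `x, y ↦ xᴴ G y`, of the
parallelepiped spanned by the columns of `X` (the Gram determinant). -/
def sqVolume {n k : ℕ} (G : Matrix (Fin n) (Fin n) ℂ) (X : Matrix (Fin n) (Fin k) ℂ) : ℝ :=
  (Xᴴ * G * X).det.re

/-- In one step, `A` increases the squares of the volumes of the parallelepipeds of all dimensions,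
measured with the inner product `G`, at most by the factor `K`. -/
def VolumeGrowthLe (K : ℝ) {n : ℕ} (A : Matrix (Fin n) (Fin n) ℤ) (G : Matrix (Fin n) (Fin n) ℂ) : Prop :=
  ∀ (k : ℕ) (X : Matrix (Fin n) (Fin k) ℂ), sqVolume G (toComplex A * X) ≤ K * sqVolume G X

/-- The square of the norm of `D`, with respect to the inner product `G`, is at most `L`. -/
def SqNormLe (L : ℝ) {n : ℕ} (D : Matrix (Fin n) (Fin n) ℤ) (G : Matrix (Fin n) (Fin n) ℂ) : Prop :=
  ∀ x : Fin n → ℂ,
    (star (toComplex D *ᵥ x) ⬝ᵥ (G *ᵥ (toComplex D *ᵥ x))).re ≤ L * (star x ⬝ᵥ (G *ᵥ x)).re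

/-- `β` is a Perron number. -/
def IsPerron (β : ℝ) : Prop :=
  1 < β ∧ IsIntegral ℤ β ∧ ∀ z : ℂ, aeval z (minpoly ℤ β) = 0 → z ≠ (β : ℂ) → ‖z‖ < β

/-- `β` is a Parry number: the orbit of `1` under `x ↦ β x - ⌊β x⌋` is finite. -/
def IsParry (β : ℝ) : Prop :=
  Set.Finite (Set.range (fun k : ℕ => (fun x : ℝ => Int.fract (β * x))^[k] (1 : ℝ)))

/-- The condition of the theorem. -/
def IsEigenvalueOf (L K : ℝ) (s : ℕ) (β : ℝ) : Prop :=
  ∃ (n : ℕ) (A D : Matrix (Fin n) (Fin n) ℤ) (G : Matrix (Fin n) (Fin n) ℂ) (Q : ℤ[X]), G.PosDef ∧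
    VolumeGrowthLe K A G ∧ (toComplex D).rank ≤ s ∧ SqNormLe L D G ∧
    A.charpoly = minpoly ℤ β * Q ∧ (Q.map (Int.castRingHom ℂ)).mahlerMeasure = 1 ∧
    aeval β (A + D).charpoly ≠ 0

theorem result (L K : ℝ) (s : ℕ) : ∃ μ : ℝ, 1 < μ ∧ ∀ β : ℝ, β < μ → IsPerron β →
    IsEigenvalueOf L K s β → Set.Finite {n : ℕ | 1 ≤ n ∧ IsParry (β ^ n)} := by
  obtain ⟨c, hc, _, h⟩ := Pool.Agent.Q188.RK.gap_of_one L K s
  refine ⟨c, hc, ?_⟩
  rintro β hlt ⟨hβ, hint, hperron⟩ ⟨n, A, D, G, Q, hG, hV, hs, hL, hA, hQ, hne⟩
  by_contra hinf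
  have hinf' : {n : ℕ | 1 ≤ n ∧ (Set.range (Pool.Agent.H196R3.Parry.orb (β ^ n))).Finite}.Infinite := hinf
  have hM := Pool.Agent.H196R3.Parry.mahler_eq hβ hint
    (fun z hz hne => Pool.Agent.H196R3.Parry.conj_le_one hβ hint hperron hinf' hz hne)
  have hM2 : (A.charpoly.map (Int.castRingHom ℂ)).mahlerMeasure = β := by
    rw [hA, Polynomial.map_mul, mahlerMeasure_mul, hQ, mul_one]
    exact hM
  have hroot : aeval (β : ℂ) (minpoly ℤ β) = 0 := Pool.Agent.H196R3.Parry.aeval_self
  have h1 := ((h n A D G hG hV hs hL).1 (β : ℂ) 1 (by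
    rw [Complex.norm_real, Real.norm_of_nonneg (by linarith)]
    exact hβ)).1 (by
      rw [pow_one]
      refine dvd_iff_isRoot.mpr ?_
      show eval _ _ = 0
      unfold Pool.Agent.H261R2.CM.toC
      rw [hA, Polynomial.map_mul, eval_mul, eval_map]
      have : eval₂ (Int.castRingHom ℂ) (β : ℂ) (minpoly ℤ β) = 0 := hroot
      rw [this, zero_mul]) (by
      rw [pow_one]
      intro h2
      have h3 : eval (β : ℂ) (Pool.Agent.H261R2.CM.toC (A + D).charpoly) = 0 := dvd_iff_isRoot.mp h2
      apply hne
      unfold Pool.Agent.H261R2.CM.toC at h3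
      rw [eval_map] at h3
      have h4 : aeval (β : ℂ) (A + D).charpoly = 0 := h3
      have h5 : aeval (β : ℂ) (A + D).charpoly = ((aeval β (A + D).charpoly : ℝ) : ℂ) := by
        exact Polynomial.aeval_algebraMap_apply ℂ β _
      rw [h5] at h4
      exact_mod_cast h4)
  have h2 : Pool.Agent.H261R2.CM.m1 A.charpoly = β := hM2
  rw [h2] at h1
  linarith

end Pool.Agent.Results.MP_1f45fc_nt.BoundedVolumeGrowth
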