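import Mathlib
import Pool.Agent.Q98.SG.F

/-!
# Parry powers and trace fields of finite exponent modulo the centre

Let `β` be a Perron number such that `β⁻¹` is a conjugate of `β`, and suppose that the trace field
`K = ℚ(β + β⁻¹)` is a Galois extension of `ℚ`, with group `G` of order `n`. No condition is put on
the ramification in `K`.

* If all `d`-th powers of elements of `G` are central, `β ≤ B` and `n ≥ N(B, d)`, then only finitely
  many powers of `β` are Parry numbers. Hence for all `B` and `d` the degrees of the Salem numbers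
  below `B` with such a trace field are bounded.
* If `β` is smaller than Lehmer's number one can take `N = 8 ^ (d p ^ (d + 1))`, with any prime number
  `p > max (d, 16)`.
* If every element of `G` has at most `c` conjugates and `n ≥ (4 β ^ 4) ^ c`, then only finitely many
  powers of `β` are Parry numbers (`n ≥ 8 ^ c` suffices for `β` below Lehmer's number).

Method. Let `t = β + β⁻¹`, `D_m` the polynomials with `D_m(t) = β ^ m + β ^ (-m)`, and let `e` be the
ramification index of a fixed prime `p > max (d, 16)`. The `d`-th power `σ` of a Frobenius element is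
the same for all primes above `p`, so `D_a(t) - σ(D_b(t))` is divisible by `p` for
`a = p ^ (d + k)`, `b = p ^ k ≥ e`, and its norm gives `n ≤ A e`. If `e` is large, then the inertia
group has small index in `G`; its wild part is central, as `p` does not divide `d`, and its tame part
is cyclic, so that the centre of `G` has bounded index. In this case all conjugacy classes are small,
and one takes a prime `q` between `n` and `2 n` instead: if it is unramified, the product of the
congruences for the Frobenius elements is divisible by `q`; if it is ramified, one uses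
`D_q(t) - σ(D_q(t))` for the conjugates `σ` of an inertia element, since `t ^ q` and `σ(t) ^ q` are
congruent modulo the power `Q ^ q ⊆ (q)` of a prime `Q`, as `q > n ≥ e`.
-/

set_option autoImplicit false

namespace Pool.Agent.Results.MP_1f45fc_nt.GaloisTraceFields

open Pool.Agent.W738.SAL Pool.Agent.Q98.SG

/-- `β` is a Perron number, `β⁻¹` is a conjugate of `β`, and `ℚ(β + β⁻¹)` is Galois over `ℚ` -/
def GaloisTrace (β : ℝ) : Prop := IsPerron β ∧ IsReciprocal β ∧ IsGalois ℚ (TF β)

/-- the degree of the trace field `ℚ(β + β⁻¹)` -/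
noncomputable def deg (β : ℝ) : ℕ := Module.finrank ℚ (TF β)

/-- all `d`-th powers of automorphisms of `K` are central -/
def PowersCentral (K : Type) [Field K] [Algebra ℚ K] (d : ℕ) : Prop :=
  ∀ σ τ : K ≃ₐ[ℚ] K, σ ^ d * τ = τ * σ ^ d

/-- the automorphisms of `K` have at most `c` conjugates -/
def ClassesLe (K : Type) [Field K] [Algebra ℚ K] (c : ℕ) : Prop :=
  ∀ σ : K ≃ₐ[ℚ] K, (conjugatesOf σ).ncard ≤ c

/-- `τ` is Lehmer's number -/
def IsLehmer (τ : ℝ) : Prop :=
  1 < τ ∧ τ ^ 10 + τ ^ 9 - τ ^ 7 - τ ^ 6 - τ ^ 5 - τ ^ 4 - τ ^ 3 + τ + 1 = 0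

/-- (1) finite exponent modulo the centre, arbitrary bounds; (2) the same below Lehmer's number `τ`;
(3) small conjugacy classes -/
theorem result :
    (∀ (B : ℝ) (d : ℕ), 0 < d → ∃ N : ℕ, ∀ β : ℝ, GaloisTrace β → β ≤ B → PowersCentral (TF β) d →
      N ≤ deg β → (ParryPowers β).Finite) ∧
    (∀ τ β : ℝ, IsLehmer τ → GaloisTrace β → β < τ → ∀ d p : ℕ, 0 < d → p.Prime → d < p → 16 < p →
      PowersCentral (TF β) d → 8 ^ (p ^ (d + 1) * d) ≤ deg β → (ParryPowers β).Finite) ∧
    (∀ β : ℝ, GaloisTrace β → ∀ c : ℕ, ClassesLe (TF β) c → (4 * β ^ 4) ^ c ≤ (deg β : ℝ) →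
      (ParryPowers β).Finite) := by
  refine ⟨?_, ?_, ?_⟩
  · intro B d hd
    obtain ⟨N, hN⟩ := thmC B d hd
    exact ⟨N, fun β hG hβ hcen hn => hN β hG.1 hG.2.1 hG.2.2 hβ hcen hn⟩
  · rintro τ β ⟨hτ1, hτ⟩ ⟨hP, hrec, hG⟩ hβ d p hd hp hdp h16 hcen hn
    exact (thmD hτ1 hτ hP hrec hβ).2 d p hd hp hdp h16 hcen hn
  · rintro β ⟨hP, hrec, hG⟩ c hc hn
    exact thmA hP hrec hc hn

end Pool.Agent.Results.MP_1f45fc_nt.GaloisTraceFields
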