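import Mathlib
import Pool.Agent.TH860.LP.Fin

/-!
# Parry powers of Perron numbers and polynomials in `X ^ m` modulo an arbitrary integer

Let `β > 1` be a Perron number with minimal polynomial `f` of degree `d`, and let `q ≥ 2`, `m ≥ 1` be
integers; `q` need not be a prime (it may be a high power of `2`), and nothing is assumed on the relation
between `m` and `q`.

(1) Let `G` be a monic integer polynomial of degree `D ≥ 1` such that `f` divides `G (X ^ m)` modulo `q`. If
`D (log d + 2 m log β) < (d - D) log q`, then `β ^ k` is a Parry number for only finitely many `k`.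

(2) Suppose that the coefficients of `f` at the exponents not divisible by `m` are divisible by `q`. If
`d β ^ (2 m) < q ^ (m - 1)`, then `β ^ k` is a Parry number for only finitely many `k`.

(3) Suppose in addition to the divisibility in (2) that `β ^ 4 ≤ 2` (this is the case for all `β` below
Lehmer's number `1.17628...`). If `d ^ 2 * 2 ^ m < q ^ (2 (m - 1))`, then `β ^ k` is a Parry number for only
finitely many `k`. For instance (`m = 2`) it is enough that the coefficients at the odd exponents are divisible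
by some `q > 2 d`.

If infinitely many powers of `β` are Parry numbers then all the other conjugates of `β` lie in the closed unit
disc and the `m`-th powers of the conjugates are distinct; the values of `G` at them are divisible by `q`, so
their Vandermonde determinant is divisible by a high power of `q`, and Hadamard's inequality bounds it by a
power of `β` (library `TH860.LP` of the starting files).
-/

set_option autoImplicit false

open Polynomial

namespace Pool.Agent.Results.MP_1f45fc_nt.ModulesOfPowers

/-- `β > 1` is an algebraic integer whose other conjugates have modulus less than `β`. -/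
def IsPerron (β : ℝ) : Prop :=
  1 < β ∧ IsIntegral ℤ β ∧
    ∀ z : ℂ, aeval z (minpoly ℤ β) = 0 → z ≠ (β : ℂ) → ‖z‖ < β

/-- The set of the `k ≥ 1` such that `β ^ k` is a Parry number, that is, the orbit of `1` under
`x ↦ fract (β ^ k * x)` is finite. -/
def parryPowers (β : ℝ) : Set ℕ :=
  {k : ℕ | 1 ≤ k ∧ Set.Finite (Set.range (fun j : ℕ =>
    (fun x : ℝ => Int.fract (β ^ k * x))^[j] (1 : ℝ)))}

/-- **Parry powers and polynomials in `X ^ m` modulo an arbitrary integer `q`.** -/
theorem result (β : ℝ) (hβ : IsPerron β) (q m : ℕ) (hq : 2 ≤ q) (hm : 1 ≤ m) :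
    (∀ G : ℤ[X], G.Monic → 1 ≤ G.natDegree →
      (∃ A B : ℤ[X], G.comp (X ^ m) = A * minpoly ℤ β + C (q : ℤ) * B) →
      (G.natDegree : ℝ) * (Real.log (minpoly ℤ β).natDegree + 2 * m * Real.log β) <
        ((minpoly ℤ β).natDegree - G.natDegree) * Real.log q → (parryPowers β).Finite) ∧
    ((∀ i, ¬ m ∣ i → (q : ℤ) ∣ (minpoly ℤ β).coeff i) →
      ((minpoly ℤ β).natDegree * β ^ (2 * m) < (q : ℝ) ^ (m - 1) → (parryPowers β).Finite) ∧
      (β ^ 4 ≤ 2 → (minpoly ℤ β).natDegree ^ 2 * 2 ^ m < q ^ (2 * (m - 1)) →
        (parryPowers β).Finite)) := by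
  obtain ⟨h1, h2, h3⟩ := hβ
  refine ⟨fun G hGm hG0 hdvd h => ?_, fun hc => ?_⟩
  · exact Pool.Agent.TH860.LP.parry_finite' h1 h2 h3 q m (by omega) hm G hGm (by omega) hdvd h
  · have key : (minpoly ℤ β).natDegree * β ^ (2 * m) < (q : ℝ) ^ (m - 1) → (parryPowers β).Finite :=
      fun h => Pool.Agent.TH860.LP.parry_gap h1 h2 h3 q m (by omega) hm hc h
    refine ⟨key, fun hβ4 h => key ?_⟩
    have hβ0 : 0 < β := by linarith
    have h4 : ((minpoly ℤ β).natDegree : ℝ) ^ 2 * 2 ^ m < (q : ℝ) ^ (2 * (m - 1)) := by exact_mod_cast h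
    have h5 : (((minpoly ℤ β).natDegree : ℝ) * β ^ (2 * m)) ^ 2 < ((q : ℝ) ^ (m - 1)) ^ 2 := by
      calc (((minpoly ℤ β).natDegree : ℝ) * β ^ (2 * m)) ^ 2
          = ((minpoly ℤ β).natDegree : ℝ) ^ 2 * (β ^ 4) ^ m := by ring
        _ ≤ ((minpoly ℤ β).natDegree : ℝ) ^ 2 * 2 ^ m := by gcongr
        _ < (q : ℝ) ^ (2 * (m - 1)) := h4
        _ = ((q : ℝ) ^ (m - 1)) ^ 2 := by ring
    exact lt_of_pow_lt_pow_left₀ 2 (by positivity) h5

end Pool.Agent.Results.MP_1f45fc_nt.ModulesOfPowers
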